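import Mathlib

set_option autoImplicit false

namespace Pool.Agent.H37.RA

open Finset

/-- The closed neighbourhood of a vertex. -/
def cn {V : Type} (Γ : SimpleGraph V) (v : V) : Set V := {w | w = v ∨ Γ.Adj v w}

/-- The row of the RA matrix which belongs to the pair `u, v`. -/
noncomputable def row {V : Type} (Γ : SimpleGraph V) (u v : V) : V → ℤ :=
  Set.indicator (cn Γ u ∩ cn Γ v) 1

/-- The row lattice of the RA matrix. -/
def lat {V : Type} (Γ : SimpleGraph V) : AddSubgroup (V → ℤ) :=
  AddSubgroup.closure (Set.range fun p : V × V => row Γ p.1 p.2)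

/-- `Γ` is `1/k`-RA: the quotient of `ℤ^V` by the row lattice is `ℤ/k`. -/
def IsRA (k : ℕ) {V : Type} (Γ : SimpleGraph V) : Prop :=
  Nonempty (((V → ℤ) ⧸ lat Γ) ≃+ ZMod k)

theorem cn_map {V W : Type} (Γ : SimpleGraph V) (Δ : SimpleGraph W) (e : Γ ≃g Δ) (u v : V) :
    e v ∈ cn Δ (e u) ↔ v ∈ cn Γ u := by
  simp [cn, e.map_adj_iff]

/-- the property only depends on the isomorphism class of the graph -/
theorem IsRA.congr {k : ℕ} {V W : Type} {Γ : SimpleGraph V} {Δ : SimpleGraph W} (e : Γ ≃g Δ)
    (h : IsRA k Γ) : IsRA k Δ := by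
  classical
  obtain ⟨φ⟩ := h
  -- the additive equivalence of functions
  let E : (W → ℤ) ≃+ (V → ℤ) :=
    { toFun := fun f v => f (e v)
      invFun := fun f w => f (e.symm w)
      left_inv := by intro f; funext w; simp
      right_inv := by intro f; funext w; simp
      map_add' := by intro f g; rfl }
  have hrow : ∀ u v : V, E (row Δ (e u) (e v)) = row Γ u v := by
    intro u v
    funext w
    change row Δ (e u) (e v) (e w) = row Γ u v w
    unfold row
    simp only [Set.indicator_apply, Set.mem_inter_iff, cn_map, Pi.one_apply]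
  have hl : (lat Δ).map (E : (W → ℤ) →+ (V → ℤ)) = lat Γ := by
    unfold lat
    rw [AddMonoidHom.map_closure]
    apply congrArg
    apply Set.ext
    intro f
    simp only [Set.mem_image, Set.mem_range, Prod.exists]
    constructor
    · rintro ⟨g, ⟨u, v, rfl⟩, rfl⟩
      have h1 := hrow (e.symm u) (e.symm v)
      rw [RelIso.apply_symm_apply, RelIso.apply_symm_apply] at h1
      exact ⟨e.symm u, e.symm v, h1.symm⟩
    · rintro ⟨u, v, rfl⟩
      exact ⟨_, ⟨e u, e v, rfl⟩, hrow u v⟩
  exact ⟨(QuotientAddGroup.congr (lat Δ) (lat Γ) E hl).trans φ⟩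

end Pool.Agent.H37.RA
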