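import Mathlib
import Pool.Agent.H37.RA.Defs

set_option autoImplicit false
set_option linter.unusedSectionVars false
set_option linter.unusedSimpArgs false

namespace Pool.Agent.H37.RA

open Finset

open Classical

section construct

variable {ι β : Type} [Fintype ι] [Fintype β] (Z : ι → β → Prop)

/-- two points for each relation -/
abbrev Pt (ι : Type) := ι × Bool

/-- an enumeration of the points -/
noncomputable def ord (ι : Type) [Fintype ι] : Pt ι ≃ Fin (Fintype.card (Pt ι)) :=
  Fintype.equivFin _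

/-- pairs of points of different relations which share a variable -/
def Dp : Type := {p : Pt ι × Pt ι // ord ι p.1 < ord ι p.2 ∧ p.1.1 ≠ p.2.1 ∧
  ∃ b, Z p.1.1 b ∧ Z p.2.1 b}

noncomputable instance : Fintype (Dp Z) := by unfold Dp; infer_instance

abbrev Blk := Pt ι ⊕ (β ⊕ Dp Z)

abbrev Vt := Option (Pt ι ⊕ Blk Z)

/-- incidence -/
def inc (a : Pt ι) : Blk Z → Prop
  | .inl a' => a = a'
  | .inr (.inl b) => Z a.1 b
  | .inr (.inr d) => a = d.1.1 ∨ a = d.1.2

/-- the vertices different from `v` and not adjacent to `v` -/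
def M : Vt Z → Set (Vt Z)
  | none => ∅
  | some (.inl a) => {v | ∃ x, v = some (.inr x) ∧ inc Z a x}
  | some (.inr x) => {v | ∃ a, v = some (.inl a) ∧ inc Z a x}

theorem mem_M_none (u : Vt Z) : u ∉ M Z none := by simp [M]

theorem none_mem_M (u : Vt Z) : none ∉ M Z u := by
  rcases u with _ | (a | x) <;> simp [M]

theorem mem_M_ll (a a' : Pt ι) : some (Sum.inl a) ∉ M Z (some (.inl a')) := by simp [M]

theorem mem_M_rr (x y : Blk Z) : some (Sum.inr x) ∉ M Z (some (.inr y)) := by simp [M]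

theorem mem_M_rl (a : Pt ι) (x : Blk Z) :
    some (Sum.inr x) ∈ M Z (some (.inl a)) ↔ inc Z a x := by
  constructor
  · rintro ⟨y, h, h'⟩
    have : x = y := Sum.inr.inj (Option.some.inj h)
    rw [this]; exact h'
  · intro h
    exact ⟨x, rfl, h⟩

theorem mem_M_lr (a : Pt ι) (x : Blk Z) :
    some (Sum.inl a) ∈ M Z (some (.inr x)) ↔ inc Z a x := by
  constructor
  · rintro ⟨y, h, h'⟩
    have : a = y := Sum.inl.inj (Option.some.inj h)
    rw [this]; exact h'
  · intro h
    exact ⟨a, rfl, h⟩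

theorem M_symm (u v : Vt Z) (h : v ∈ M Z u) : u ∈ M Z v := by
  rcases u with _ | (a | x)
  · exact absurd h (mem_M_none Z v)
  · rcases v with _ | (a' | y)
    · exact absurd h (none_mem_M Z _)
    · exact absurd h (mem_M_ll Z _ _)
    · rw [mem_M_rl] at h; rw [mem_M_lr]; exact h
  · rcases v with _ | (a' | y)
    · exact absurd h (none_mem_M Z _)
    · rw [mem_M_lr] at h; rw [mem_M_rl]; exact h
    · exact absurd h (mem_M_rr Z _ _)

theorem M_irrefl (u : Vt Z) : u ∉ M Z u := by
  rcases u with _ | (a | x)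
  · exact mem_M_none Z _
  · exact mem_M_ll Z _ _
  · exact mem_M_rr Z _ _

/-- the graph -/
def Gr : SimpleGraph (Vt Z) where
  Adj u v := u ≠ v ∧ v ∉ M Z u
  symm := ⟨fun u v h => ⟨h.1.symm, fun h' => h.2 (M_symm Z v u h')⟩⟩
  loopless := ⟨fun _ h => h.1 rfl⟩

theorem cn_Gr (u : Vt Z) : cn (Gr Z) u = (M Z u)ᶜ := by
  ext v
  change (v = u ∨ (u ≠ v ∧ v ∉ M Z u)) ↔ v ∉ M Z u
  constructor
  · rintro (rfl | h)
    · exact M_irrefl Z _
    · exact h.2
  · intro h
    by_cases h' : v = u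
    · exact Or.inl h'
    · exact Or.inr ⟨fun e => h' e.symm, h⟩

/-- indicator vectors -/
noncomputable def ind {X : Type} (S : Set X) : X → ℤ := S.indicator 1

theorem ind_apply {X : Type} (S : Set X) (x : X) : ind S x = if x ∈ S then 1 else 0 := by
  unfold ind; rw [Set.indicator_apply]; rfl

theorem row_Gr (u v : Vt Z) : row (Gr Z) u v = 1 - ind (M Z u) - ind (M Z v) +
    ind (M Z u ∩ M Z v) := by
  funext x
  have : row (Gr Z) u v x = ind ((M Z u)ᶜ ∩ (M Z v)ᶜ) x := by
    unfold row ind; rw [cn_Gr, cn_Gr]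
  rw [this]
  simp only [Pi.add_apply, Pi.sub_apply, Pi.one_apply, ind_apply, Set.mem_inter_iff,
    Set.mem_compl_iff]
  by_cases h1 : x ∈ M Z u <;> by_cases h2 : x ∈ M Z v <;> simp [h1, h2]

theorem row_mem (u v : Vt Z) : row (Gr Z) u v ∈ lat (Gr Z) :=
  AddSubgroup.subset_closure ⟨(u, v), rfl⟩

theorem ind_empty {X : Type} : ind (∅ : Set X) = 0 := by
  funext x; simp [ind_apply]

theorem one_mem : (1 : Vt Z → ℤ) ∈ lat (Gr Z) := by
  have h := row_mem Z none none
  rw [row_Gr] at h
  have e : M Z none = ∅ := rfl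
  rw [e] at h
  simpa [ind_empty] using h

theorem M_mem (u : Vt Z) : ind (M Z u) ∈ lat (Gr Z) := by
  have h := row_mem Z u none
  rw [row_Gr] at h
  have e : M Z none = ∅ := rfl
  rw [e] at h
  simp only [Set.inter_empty, ind_empty, sub_zero, add_zero] at h
  have h2 := sub_mem (one_mem Z) h
  simpa using h2

theorem MM_mem (u v : Vt Z) : ind (M Z u ∩ M Z v) ∈ lat (Gr Z) := by
  have h := row_mem Z u v
  rw [row_Gr] at h
  have h2 := add_mem (add_mem (sub_mem h (one_mem Z)) (M_mem Z u)) (M_mem Z v)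
  have : 1 - ind (M Z u) - ind (M Z v) + ind (M Z u ∩ M Z v) - 1 + ind (M Z u) + ind (M Z v) =
      ind (M Z u ∩ M Z v) := by abel
  rwa [this] at h2

/-- the relation lattice -/
def rel : AddSubgroup (β → ℤ) := AddSubgroup.closure (Set.range fun j : ι => ind {b | Z j b})

variable {R : Type} [AddCommGroup R] (φ : (β → ℤ) →+ R)

/-- the weights of the pair vertices -/
noncomputable def wd (d : Dp Z) : R := - φ (ind {b | Z d.1.1.1 b ∧ Z d.1.2.1 b})

/-- the weights of the private vertices -/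
noncomputable def wp (a : Pt ι) : R := - φ (ind {b | Z a.1 b}) -
  ∑ d : Dp Z, if a = d.1.1 ∨ a = d.1.2 then wd Z φ d else 0

/-- the weights of the blocks -/
noncomputable def wb : Blk Z → R
  | .inl a => wp Z φ a
  | .inr (.inl b) => φ (Pi.single b 1)
  | .inr (.inr d) => wd Z φ d

/-- the weights -/
noncomputable def wt : Vt Z → R
  | none => - ∑ x : Blk Z, wb Z φ x
  | some (.inl _) => 0
  | some (.inr x) => wb Z φ x

/-- the homomorphism -/
noncomputable def Phi : (Vt Z → ℤ) →+ R where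
  toFun f := ∑ v, f v • wt Z φ v
  map_zero' := by simp
  map_add' f g := by simp [add_smul, Finset.sum_add_distrib]

theorem Phi_apply (f : Vt Z → ℤ) : Phi Z φ f = f none • wt Z φ none +
    ∑ x : Blk Z, f (some (.inr x)) • wb Z φ x := by
  change ∑ v, f v • wt Z φ v = _
  rw [Fintype.sum_option, Fintype.sum_sum_type]
  simp [wt]

theorem phi_eq (g : β → ℤ) : φ g = ∑ b, g b • φ (Pi.single b 1) := by
  conv_lhs => rw [← Finset.univ_sum_single g]
  rw [map_sum]
  apply Finset.sum_congr rfl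
  intro b _
  rw [← map_zsmul]
  congr 1
  rw [← Pi.single_smul]
  simp

theorem Phi_ind (S : Set (Vt Z)) (h : none ∉ S) : Phi Z φ (ind S) =
    ∑ x : Blk Z, if some (.inr x) ∈ S then wb Z φ x else 0 := by
  rw [Phi_apply, ind_apply, if_neg h, zero_smul, zero_add]
  apply Finset.sum_congr rfl
  intro x _
  rw [ind_apply]
  split_ifs <;> simp

theorem phi_ind (S : Set β) : φ (ind S) = ∑ b, if b ∈ S then φ (Pi.single b 1) else 0 := by
  rw [phi_eq]
  apply Finset.sum_congr rfl
  intro x _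
  rw [ind_apply]
  split_ifs <;> simp

theorem Phi_one : Phi Z φ 1 = 0 := by
  rw [Phi_apply]
  simp [wt]

theorem Phi_M_l (a : Pt ι) : Phi Z φ (ind (M Z (some (.inl a)))) = 0 := by
  rw [Phi_ind _ _ _ (none_mem_M Z _)]
  simp only [mem_M_rl]
  rw [Fintype.sum_sum_type, Fintype.sum_sum_type]
  have e1 : ∑ x : Pt ι, (if inc Z a (.inl x) then wb Z φ (.inl x) else 0) = wp Z φ a := by
    rw [Finset.sum_eq_single a, if_pos (show inc Z a (.inl a) from rfl)]
    · rfl
    · intro b _ hb
      rw [if_neg (show ¬ inc Z a (.inl b) from fun h => hb (Eq.symm h))]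
    · intro h; exact absurd (Finset.mem_univ _) h
  have e2 : ∑ x : β, (if inc Z a (.inr (.inl x)) then wb Z φ (.inr (.inl x)) else 0) =
      φ (ind {b | Z a.1 b}) := by
    rw [phi_ind]; rfl
  have e3 : ∑ x : Dp Z, (if inc Z a (.inr (.inr x)) then wb Z φ (.inr (.inr x)) else 0) =
      ∑ d : Dp Z, if a = d.1.1 ∨ a = d.1.2 then wd Z φ d else 0 := by
    apply Finset.sum_congr rfl
    intro d _
    exact if_congr Iff.rfl rfl rfl
  rw [e1, e2, e3, wp]
  abel

theorem Phi_of_left (S : Set (Vt Z)) (h : none ∉ S) (h' : ∀ x, some (Sum.inr x) ∉ S) :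
    Phi Z φ (ind S) = 0 := by
  rw [Phi_ind _ _ _ h]
  apply Finset.sum_eq_zero
  intro x _
  rw [if_neg (h' x)]

theorem Phi_M (u : Vt Z) : Phi Z φ (ind (M Z u)) = 0 := by
  rcases u with _ | (a | x)
  · have e : M Z none = ∅ := rfl
    rw [e, ind_empty, map_zero]
  · exact Phi_M_l Z φ a
  · exact Phi_of_left Z φ _ (none_mem_M Z _) (fun y => mem_M_rr Z _ _)

theorem inc_two {a a' : Pt ι} (h : a ≠ a') (x : Blk Z) (h1 : inc Z a x) (h2 : inc Z a' x) :
    (∃ b, x = .inr (.inl b) ∧ Z a.1 b ∧ Z a'.1 b) ∨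
    (∃ d : Dp Z, x = .inr (.inr d) ∧ ((a = d.1.1 ∧ a' = d.1.2) ∨ (a = d.1.2 ∧ a' = d.1.1))) := by
  rcases x with x | b | d
  · exact absurd (h1.trans h2.symm) h
  · exact Or.inl ⟨b, rfl, h1, h2⟩
  · refine Or.inr ⟨d, rfl, ?_⟩
    rcases h1 with h1 | h1 <;> rcases h2 with h2 | h2
    · exact absurd (h1.trans h2.symm) h
    · exact Or.inl ⟨h1, h2⟩
    · exact Or.inr ⟨h1, h2⟩
    · exact absurd (h1.trans h2.symm) h

/-- intersection of two point neighbourhoods, same relation -/
theorem inter_same (j : ι) (x : Blk Z) : (inc Z (j, false) x ∧ inc Z (j, true) x) ↔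
    ∃ b, x = .inr (.inl b) ∧ Z j b := by
  constructor
  · rintro ⟨h1, h2⟩
    rcases inc_two Z (by simp) x h1 h2 with ⟨b, hb, h3, _⟩ | ⟨d, hd, h3⟩
    · exact ⟨b, hb, h3⟩
    · exfalso
      have := d.2.2.1
      rcases h3 with ⟨h3, h4⟩ | ⟨h3, h4⟩
      · rw [← h3, ← h4] at this; exact this rfl
      · rw [← h3, ← h4] at this; exact this rfl
  · rintro ⟨b, rfl, h⟩
    exact ⟨h, h⟩

/-- intersection of two point neighbourhoods, different relations -/
theorem inter_diff (d : Dp Z) (x : Blk Z) : (inc Z d.1.1 x ∧ inc Z d.1.2 x) ↔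
    ((∃ b, x = .inr (.inl b) ∧ Z d.1.1.1 b ∧ Z d.1.2.1 b) ∨ x = .inr (.inr d)) := by
  have hne : d.1.1 ≠ d.1.2 := fun e => d.2.2.1 (by rw [e])
  constructor
  · rintro ⟨h1, h2⟩
    rcases inc_two Z hne x h1 h2 with ⟨b, hb, h3, h4⟩ | ⟨d', hd, h3⟩
    · exact Or.inl ⟨b, hb, h3, h4⟩
    · right
      rcases h3 with ⟨h3, h4⟩ | ⟨h3, h4⟩
      · rw [hd]
        have : d' = d := Subtype.ext (Prod.ext h3.symm h4.symm)
        rw [this]
      · exfalso
        have e1 := d.2.1
        have e2 := d'.2.1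
        rw [← h3, ← h4] at e2
        exact lt_asymm e1 e2
  · rintro (⟨b, rfl, h3, h4⟩ | rfl)
    · exact ⟨h3, h4⟩
    · exact ⟨Or.inl rfl, Or.inr rfl⟩

theorem Phi_same (hφ : ∀ j, φ (ind {b | Z j b}) = 0) (j : ι) :
    Phi Z φ (ind (M Z (some (.inl (j, false))) ∩ M Z (some (.inl (j, true))))) = 0 := by
  rw [Phi_ind _ _ _ (fun h => none_mem_M Z _ h.1)]
  simp only [Set.mem_inter_iff, mem_M_rl, inter_same]
  rw [Fintype.sum_sum_type, Fintype.sum_sum_type]
  simp only [reduceCtorEq, false_and, exists_false, if_false, Finset.sum_const_zero, zero_add,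
    Sum.inr.injEq, add_zero, wb]
  have := hφ j
  rw [phi_ind] at this
  rw [← this]
  apply Finset.sum_congr rfl
  intro b _
  congr 1
  simp

theorem Phi_diff (d : Dp Z) :
    Phi Z φ (ind (M Z (some (.inl d.1.1)) ∩ M Z (some (.inl d.1.2)))) = 0 := by
  rw [Phi_ind _ _ _ (fun h => none_mem_M Z _ h.1)]
  simp only [Set.mem_inter_iff, mem_M_rl, inter_diff]
  rw [Fintype.sum_sum_type, Fintype.sum_sum_type]
  simp only [reduceCtorEq, false_and, exists_false, or_false, if_false, Finset.sum_const_zero,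
    zero_add, Sum.inr.injEq, add_zero, wb, false_or, Sum.inl.injEq]
  rw [Finset.sum_ite_eq' Finset.univ d, if_pos (Finset.mem_univ _), wd, phi_ind]
  rw [← sub_eq_add_neg, sub_eq_zero]
  apply Finset.sum_congr rfl
  intro b _
  congr 1
  simp

theorem Phi_MM (hφ : ∀ j, φ (ind {b | Z j b}) = 0) (u v : Vt Z) :
    Phi Z φ (ind (M Z u ∩ M Z v)) = 0 := by
  rcases u with _ | (a | x)
  · have e : M Z none = ∅ := rfl
    rw [e, Set.empty_inter, ind_empty, map_zero]
  · rcases v with _ | (a' | y)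
    · have e : M Z none = ∅ := rfl
      rw [e, Set.inter_empty, ind_empty, map_zero]
    · by_cases haa : a = a'
      · rw [haa, Set.inter_self]; exact Phi_M Z φ _
      · by_cases h1 : a.1 = a'.1
        · obtain ⟨j, s⟩ := a
          obtain ⟨j', s'⟩ := a'
          simp only at h1
          subst h1
          have hss : s ≠ s' := fun h => haa (by rw [h])
          rcases s with _ | _ <;> rcases s' with _ | _
          · exact absurd rfl hss
          · exact Phi_same Z φ hφ j
          · rw [Set.inter_comm]; exact Phi_same Z φ hφ j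
          · exact absurd rfl hss
        · by_cases hs : ∃ b, Z a.1 b ∧ Z a'.1 b
          · rcases lt_or_gt_of_ne (fun h : ord ι a = ord ι a' => haa ((ord ι).injective h))
              with hlt | hlt
            · exact Phi_diff Z φ ⟨(a, a'), hlt, h1, hs⟩
            · rw [Set.inter_comm]
              obtain ⟨b, hb, hb'⟩ := hs
              exact Phi_diff Z φ ⟨(a', a), hlt, fun h => h1 h.symm, b, hb', hb⟩
          · rw [Phi_ind _ _ _ (fun h => none_mem_M Z _ h.1)]
            apply Finset.sum_eq_zero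
            intro x _
            rw [if_neg]
            rintro ⟨h3, h4⟩
            rw [mem_M_rl] at h3 h4
            rcases inc_two Z haa x h3 h4 with ⟨b, _, h5, h6⟩ | ⟨d, _, h5⟩
            · exact hs ⟨b, h5, h6⟩
            · obtain ⟨b, hb⟩ := d.2.2.2
              rcases h5 with ⟨h5, h6⟩ | ⟨h5, h6⟩
              · rw [h5, h6] at hs; exact hs ⟨b, hb⟩
              · rw [h5, h6] at hs; exact hs ⟨b, hb.2, hb.1⟩
    · apply Phi_of_left Z φ _ (fun h => none_mem_M Z _ h.1)
      intro x h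
      exact mem_M_rr Z _ _ h.2
  · apply Phi_of_left Z φ _ (fun h => none_mem_M Z _ h.1)
    intro y h
    exact mem_M_rr Z _ _ h.1

theorem Phi_lat (hφ : ∀ j, φ (ind {b | Z j b}) = 0) : lat (Gr Z) ≤ (Phi Z φ).ker := by
  unfold lat
  rw [AddSubgroup.closure_le]
  rintro _ ⟨⟨u, v⟩, rfl⟩
  change Phi Z φ (row (Gr Z) u v) = 0
  rw [row_Gr, map_add, map_sub, map_sub, Phi_one, Phi_M, Phi_M, Phi_MM Z φ hφ]
  simp

/-- extension by zero -/
def emb : (β → ℤ) →+ (Vt Z → ℤ) where
  toFun g v := match v with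
    | some (.inr (.inr (.inl b))) => g b
    | _ => 0
  map_zero' := by
    funext v
    rcases v with _ | (a | (a | b | d)) <;> rfl
  map_add' f g := by
    funext v
    rcases v with _ | (a | (a | b | d)) <;> simp

theorem Phi_emb (g : β → ℤ) : Phi Z φ (emb Z g) = φ g := by
  rw [Phi_apply, phi_eq φ g, Fintype.sum_sum_type, Fintype.sum_sum_type]
  simp [emb, wb]

theorem emb_ind (j : ι) : emb Z (ind {b | Z j b}) =
    ind (M Z (some (.inl (j, false))) ∩ M Z (some (.inl (j, true)))) := by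
  funext v
  rw [ind_apply]
  rcases v with _ | (a | x)
  · rw [if_neg (fun h => none_mem_M Z _ h.1)]; rfl
  · rw [if_neg (fun h => mem_M_ll Z _ _ h.1)]; rfl
  · simp only [Set.mem_inter_iff, mem_M_rl, inter_same]
    rcases x with a | b | d
    · simp [emb]
    · simp [emb, ind_apply]
    · simp [emb]

theorem emb_rel (g : β → ℤ) (h : g ∈ rel Z) : emb Z g ∈ lat (Gr Z) := by
  have : rel Z ≤ (lat (Gr Z)).comap (emb Z) := by
    unfold rel
    rw [AddSubgroup.closure_le]
    rintro _ ⟨j, rfl⟩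
    change emb Z (ind {b | Z j b}) ∈ lat (Gr Z)
    rw [emb_ind]
    exact MM_mem Z _ _
  exact this h

/-- everything is generated by the lattice and the variables -/
def HH : AddSubgroup (Vt Z → ℤ) := lat (Gr Z) ⊔ (emb Z).range

theorem sgl_b (b : β) : Pi.single (some (.inr (.inr (.inl b)))) 1 ∈ HH Z := by
  apply AddSubgroup.mem_sup_right
  refine ⟨Pi.single b 1, ?_⟩
  funext v
  rcases v with _ | (a | (a | b' | d))
  · simp [emb]
  · simp [emb]
  · simp [emb]
  · by_cases h : b' = b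
    · subst h; simp [emb]
    · simp [emb, h]
  · simp [emb]

theorem sgl_l (a : Pt ι) : Pi.single (some (.inl a)) 1 ∈ HH Z := by
  apply AddSubgroup.mem_sup_left
  have h := M_mem Z (some (.inr (.inl a)))
  convert h using 1
  funext v
  rw [ind_apply]
  rcases v with _ | (a' | x)
  · rw [if_neg (none_mem_M Z _)]; simp
  · rw [mem_M_lr]
    by_cases h : a' = a
    · subst h; simp [inc]
    · simp [inc, h]
  · rw [if_neg (mem_M_rr Z _ _)]; simp

theorem ind_eq_sum (S : Set (Vt Z)) : ind S = ∑ v, if v ∈ S then Pi.single v (1 : ℤ) else 0 := by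
  funext w
  rw [ind_apply, Finset.sum_apply]
  rw [Finset.sum_eq_single w]
  · split_ifs <;> simp
  · intro v _ hv
    split_ifs
    · rw [Pi.single_eq_of_ne hv.symm]
    · rfl
  · intro h; exact absurd (Finset.mem_univ _) h

theorem sgl_of {S : Set (Vt Z)} {u : Vt Z} (hu : u ∈ S) (hS : ind S ∈ HH Z)
    (h : ∀ v ∈ S, v ≠ u → Pi.single v (1 : ℤ) ∈ HH Z) : Pi.single u (1 : ℤ) ∈ HH Z := by
  rw [ind_eq_sum] at hS
  rw [← Finset.add_sum_erase _ _ (Finset.mem_univ u), if_pos hu] at hS
  have h2 : ∑ v ∈ Finset.univ.erase u, (if v ∈ S then Pi.single v (1 : ℤ) else 0) ∈ HH Z := by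
    apply sum_mem
    intro v hv
    split_ifs with hvS
    · exact h v hvS (Finset.ne_of_mem_erase hv)
    · exact zero_mem _
  have h3 := sub_mem hS h2
  simpa using h3

theorem sgl_d (d : Dp Z) : Pi.single (some (.inr (.inr (.inr d)))) 1 ∈ HH Z := by
  apply sgl_of Z (S := M Z (some (.inl d.1.1)) ∩ M Z (some (.inl d.1.2)))
  · constructor
    · rw [mem_M_rl]; exact Or.inl rfl
    · rw [mem_M_rl]; exact Or.inr rfl
  · exact AddSubgroup.mem_sup_left (MM_mem Z _ _)
  · intro v hv hne
    rcases v with _ | (a | x)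
    · exact absurd hv.1 (none_mem_M Z _)
    · exact absurd hv.1 (mem_M_ll Z _ _)
    · have h := hv
      simp only [Set.mem_inter_iff, mem_M_rl, inter_diff] at h
      rcases h with ⟨b, rfl, _⟩ | rfl
      · exact sgl_b Z b
      · exact absurd rfl hne

theorem sgl_p (a : Pt ι) : Pi.single (some (.inr (.inl a))) 1 ∈ HH Z := by
  apply sgl_of Z (S := M Z (some (.inl a)))
  · rw [mem_M_rl]; rfl
  · exact AddSubgroup.mem_sup_left (M_mem Z _)
  · intro v hv hne
    rcases v with _ | (a' | x)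
    · exact absurd hv (none_mem_M Z _)
    · exact absurd hv (mem_M_ll Z _ _)
    · rw [mem_M_rl] at hv
      rcases x with a' | b | d
      · exact absurd (by rw [show a = a' from hv]) hne
      · exact sgl_b Z b
      · exact sgl_d Z d

theorem sgl_x (x : Blk Z) : Pi.single (some (.inr x)) 1 ∈ HH Z := by
  rcases x with a | b | d
  · exact sgl_p Z a
  · exact sgl_b Z b
  · exact sgl_d Z d

theorem sgl_n : Pi.single none 1 ∈ HH Z := by
  apply sgl_of Z (S := Set.univ)
  · trivial
  · have : ind (Set.univ : Set (Vt Z)) = 1 := by funext v; simp [ind_apply]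
    rw [this]
    exact AddSubgroup.mem_sup_left (one_mem Z)
  · intro v _ hne
    rcases v with _ | (a | x)
    · exact absurd rfl hne
    · exact sgl_l Z a
    · exact sgl_x Z x

theorem HH_top (f : Vt Z → ℤ) : f ∈ HH Z := by
  rw [← Finset.univ_sum_single f]
  apply sum_mem
  intro v _
  have : Pi.single v (f v) = (f v) • (Pi.single v (1 : ℤ) : Vt Z → ℤ) := by
    rw [← Pi.single_smul]; simp
  rw [this]
  apply zsmul_mem
  rcases v with _ | (a | x)
  · exact sgl_n Z
  · exact sgl_l Z a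
  · exact sgl_x Z x

/-- the kernel of the homomorphism is the lattice -/
theorem Phi_ker (hφ : φ.ker = rel Z) : (Phi Z φ).ker = lat (Gr Z) := by
  have h0 : ∀ j, φ (ind {b | Z j b}) = 0 := by
    intro j
    have : ind {b | Z j b} ∈ φ.ker := by
      rw [hφ]; exact AddSubgroup.subset_closure ⟨j, rfl⟩
    exact this
  apply le_antisymm _ (Phi_lat Z φ h0)
  intro f hf
  obtain ⟨l, hl, g, ⟨g', rfl⟩, rfl⟩ := AddSubgroup.mem_sup.1 (HH_top Z f)
  have h1 : Phi Z φ l = 0 := Phi_lat Z φ h0 hl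
  have h2 : φ g' = 0 := by
    have := hf
    rw [AddMonoidHom.mem_ker, map_add, h1, zero_add, Phi_emb] at this
    exact this
  have h3 : g' ∈ rel Z := by rw [← hφ]; exact h2
  exact add_mem hl (emb_rel Z g' h3)

/-- the quotient by the row lattice is the group presented by the relations -/
theorem quot (hφ : φ.ker = rel Z) (hs : Function.Surjective φ) :
    Nonempty (((Vt Z → ℤ) ⧸ lat (Gr Z)) ≃+ R) := by
  have hs' : Function.Surjective (Phi Z φ) := by
    intro r
    obtain ⟨g, hg⟩ := hs r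
    exact ⟨emb Z g, by rw [Phi_emb, hg]⟩
  rw [← Phi_ker Z φ hφ]
  exact ⟨QuotientAddGroup.quotientKerEquivOfSurjective _ hs'⟩

end construct

end Pool.Agent.H37.RA
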