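import Mathlib
import Pool.Agent.H37.RA.Construct

set_option autoImplicit false
set_option linter.unusedSectionVars false
set_option linter.unusedSimpArgs false

namespace Pool.Agent.H37.RA

open Finset

open Classical

section chain

variable (m : ℕ) (d : Fin (m + 1) → Bool)

abbrev Ix := Fin (m + 1) × Fin 3

/-- the variables of a stage which enter the next stage -/
def tl (i : Fin (m + 1)) : Finset (Ix m) :=
  if d i then {(i, 0), (i, 1), (i, 2)} else {(i, 0), (i, 1)}

/-- the relations -/
def S : Ix m → Finset (Ix m)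
  | (i, 0) => Fin.cases {(0, 0)} (fun j => insert (j.succ, 0) (tl m d j.castSucc)) i
  | (i, 1) => Fin.cases {(0, 1)} (fun j => insert (j.succ, 1) (tl m d j.castSucc)) i
  | (i, 2) => Fin.cases (tl m d (Fin.last m)) (fun j => {(j.castSucc, 2), (j.succ, 2)}) i

theorem S_z0 : S m d (0, 0) = {(0, 0)} := rfl
theorem S_z1 : S m d (0, 1) = {(0, 1)} := rfl
theorem S_z2 : S m d (0, 2) = tl m d (Fin.last m) := rfl
theorem S_s0 (j : Fin m) : S m d (j.succ, 0) = insert (j.succ, 0) (tl m d j.castSucc) := rfl
theorem S_s1 (j : Fin m) : S m d (j.succ, 1) = insert (j.succ, 1) (tl m d j.castSucc) := rfl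
theorem S_s2 (j : Fin m) : S m d (j.succ, 2) = {(j.castSucc, 2), (j.succ, 2)} := rfl

theorem mem_tl (i : Fin (m + 1)) (b : Ix m) (h : b ∈ tl m d i) : b.1 = i := by
  unfold tl at h
  split_ifs at h
  · simp only [Finset.mem_insert, Finset.mem_singleton] at h
    rcases h with rfl | rfl | rfl <;> rfl
  · simp only [Finset.mem_insert, Finset.mem_singleton] at h
    rcases h with rfl | rfl <;> rfl

theorem succ_eq (j : Fin m) : j.succ = j.castSucc + 1 := by
  simp

/-- a relation only involves variables of its stage and of the previous one -/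
theorem mem_S (j b : Ix m) (h : b ∈ S m d j) : j.1 = b.1 ∨ j.1 = b.1 + 1 := by
  obtain ⟨i, t⟩ := j
  refine Fin.cases ?_ (fun j => ?_) i h
  · intro h
    fin_cases t
    · left
      change b ∈ ({(0, 0)} : Finset (Ix m)) at h
      rw [Finset.mem_singleton] at h
      rw [h]
    · left
      change b ∈ ({(0, 1)} : Finset (Ix m)) at h
      rw [Finset.mem_singleton] at h
      rw [h]
    · right
      have := mem_tl m d _ _ h
      rw [this]
      simp
  · intro h
    fin_cases t
    · change b ∈ insert (j.succ, 0) (tl m d j.castSucc) at h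
      rw [Finset.mem_insert] at h
      rcases h with h | h
      · left; rw [h]
      · right; rw [mem_tl m d _ _ h]; exact succ_eq m j
    · change b ∈ insert (j.succ, 1) (tl m d j.castSucc) at h
      rw [Finset.mem_insert] at h
      rcases h with h | h
      · left; rw [h]
      · right; rw [mem_tl m d _ _ h]; exact succ_eq m j
    · change b ∈ ({(j.castSucc, 2), (j.succ, 2)} : Finset (Ix m)) at h
      rw [Finset.mem_insert, Finset.mem_singleton] at h
      rcases h with h | h
      · right; rw [h]; exact succ_eq m j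
      · left; rw [h]

/-- the relation as a predicate -/
def ZZ (j b : Ix m) : Prop := b ∈ S m d j

theorem ind_S (j : Ix m) : ind {b | ZZ m d j b} = ∑ b ∈ S m d j, Pi.single b (1 : ℤ) := by
  funext w
  rw [ind_apply, Finset.sum_apply]
  by_cases h : w ∈ S m d j
  · rw [if_pos (show w ∈ {b | ZZ m d j b} from h), Finset.sum_eq_single w]
    · simp
    · intro b _ hb; rw [Pi.single_eq_of_ne hb.symm]
    · intro h'; exact absurd h h'
  · rw [if_neg (show ¬ w ∈ {b | ZZ m d j b} from h)]
    symm
    apply Finset.sum_eq_zero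
    intro b hb
    rw [Pi.single_eq_of_ne]
    rintro rfl
    exact h hb

theorem sum_zsmul' {R α : Type} [AddCommGroup R] (s : Finset α) (f : α → ℤ) (x : R) :
    (∑ i ∈ s, f i) • x = ∑ i ∈ s, f i • x := Finset.sum_smul

section sums

variable {R : Type} [AddCommGroup R] (F : Ix m → R)

theorem sum_tl (i : Fin (m + 1)) : ∑ b ∈ tl m d i, F b =
    F (i, 0) + F (i, 1) + (if d i then F (i, 2) else 0) := by
  unfold tl
  split_ifs
  · rw [Finset.sum_insert (by simp), Finset.sum_insert (by simp), Finset.sum_singleton, add_assoc]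
  · rw [Finset.sum_insert (by simp), Finset.sum_singleton, add_zero]

theorem notMem_tl (j : Fin m) (t : Fin 3) : (j.succ, t) ∉ tl m d j.castSucc := by
  intro h
  have := mem_tl m d _ _ h
  simp only at this
  have h2 := congrArg Fin.val this
  simp at h2

theorem sum_s0 (j : Fin m) : ∑ b ∈ S m d (j.succ, 0), F b = F (j.succ, 0) +
    (F (j.castSucc, 0) + F (j.castSucc, 1) + (if d j.castSucc then F (j.castSucc, 2) else 0)) := by
  rw [S_s0, Finset.sum_insert (notMem_tl m d j 0), sum_tl]

theorem sum_s1 (j : Fin m) : ∑ b ∈ S m d (j.succ, 1), F b = F (j.succ, 1) +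
    (F (j.castSucc, 0) + F (j.castSucc, 1) + (if d j.castSucc then F (j.castSucc, 2) else 0)) := by
  rw [S_s1, Finset.sum_insert (notMem_tl m d j 1), sum_tl]

theorem sum_s2 (j : Fin m) : ∑ b ∈ S m d (j.succ, 2), F b =
    F (j.castSucc, 2) + F (j.succ, 2) := by
  rw [S_s2, Finset.sum_insert, Finset.sum_singleton]
  rw [Finset.mem_singleton]
  intro h
  have h2 := congrArg (fun x : Ix m => x.1.val) h
  simp at h2

end sums

/-- the weight of a stage -/
def U (i : ℕ) : ℕ := match i with
  | 0 => 0
  | i + 1 => 2 * U i + (if h : i < m + 1 then (if d ⟨i, h⟩ then 1 else 0) else 0)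

theorem U_succ (i : Fin (m + 1)) : U m d (i + 1) = 2 * U m d i + if d i then 1 else 0 := by
  rw [U, dif_pos i.2]

/-- the weight of a variable -/
def X (b : Ix m) : ℤ := if b.2 = 2 then (-1) ^ (b.1 : ℕ) else (-1) ^ (b.1 : ℕ) * (U m d b.1 : ℤ)

theorem X0 (i : Fin (m + 1)) : X m d (i, 0) = (-1) ^ (i : ℕ) * (U m d i : ℤ) := rfl
theorem X1 (i : Fin (m + 1)) : X m d (i, 1) = (-1) ^ (i : ℕ) * (U m d i : ℤ) := rfl
theorem X2 (i : Fin (m + 1)) : X m d (i, 2) = (-1) ^ (i : ℕ) := rfl

/-- sum of the weights which enter the next stage -/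
theorem X_tl (i : Fin (m + 1)) : X m d (i, 0) + X m d (i, 1) +
    (if d i then X m d (i, 2) else 0) = (-1) ^ (i : ℕ) * (U m d (i + 1) : ℤ) := by
  rw [X0, X1, X2, U_succ]
  split_ifs <;> push_cast <;> ring

variable (k : ℕ) (hk : U m d (m + 1) = k)

/-- the weight homomorphism -/
def wh : (Ix m → ℤ) →+ ZMod k where
  toFun g := ((∑ b, g b * X m d b : ℤ) : ZMod k)
  map_zero' := by simp
  map_add' f g := by
    rw [← Int.cast_add, ← Finset.sum_add_distrib]
    simp [add_mul]

theorem wh_single (b : Ix m) : wh m d k (Pi.single b 1) = ((X m d b : ℤ) : ZMod k) := by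
  change ((∑ c, (Pi.single b 1 : Ix m → ℤ) c * X m d c : ℤ) : ZMod k) = _
  rw [Finset.sum_eq_single b]
  · simp
  · intro c _ hc; rw [Pi.single_eq_of_ne hc, zero_mul]
  · intro h; exact absurd (Finset.mem_univ _) h

include hk in
theorem X_S (j : Ix m) : (k : ℤ) ∣ ∑ b ∈ S m d j, X m d b := by
  obtain ⟨i, t⟩ := j
  refine Fin.cases ?_ (fun j => ?_) i
  · fin_cases t
    · change (k : ℤ) ∣ ∑ b ∈ ({(0, 0)} : Finset (Ix m)), X m d b
      rw [Finset.sum_singleton, X0]
      simp [U]
    · change (k : ℤ) ∣ ∑ b ∈ ({(0, 1)} : Finset (Ix m)), X m d b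
      rw [Finset.sum_singleton, X1]
      simp [U]
    · change (k : ℤ) ∣ ∑ b ∈ tl m d (Fin.last m), X m d b
      rw [sum_tl, X_tl, Fin.val_last, hk]
      exact Dvd.intro_left _ rfl
  · fin_cases t
    · change (k : ℤ) ∣ ∑ b ∈ S m d (j.succ, 0), X m d b
      rw [sum_s0, X_tl, X0, Fin.val_succ, Fin.val_castSucc]
      rw [pow_succ]
      simp
    · change (k : ℤ) ∣ ∑ b ∈ S m d (j.succ, 1), X m d b
      rw [sum_s1, X_tl, X1, Fin.val_succ, Fin.val_castSucc]
      rw [pow_succ]
      simp
    · change (k : ℤ) ∣ ∑ b ∈ S m d (j.succ, 2), X m d b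
      rw [sum_s2, X2, X2, Fin.val_succ, Fin.val_castSucc, pow_succ]
      simp

include hk in
theorem wh_ind (j : Ix m) : wh m d k (ind {b | ZZ m d j b}) = 0 := by
  rw [ind_S, map_sum]
  simp only [wh_single]
  rw [← Int.cast_sum, ZMod.intCast_zmod_eq_zero_iff_dvd]
  exact X_S m d k hk j

/-- every homomorphism which kills the relations is determined by one value -/
theorem hom_eq {R : Type} [AddCommGroup R] (q : (Ix m → ℤ) →+ R)
    (hq : ∀ j, q (ind {b | ZZ m d j b}) = 0) (b : Ix m) :
    q (Pi.single b 1) = X m d b • q (Pi.single (0, 2) 1) := by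
  have hq' : ∀ j, ∑ b ∈ S m d j, q (Pi.single b 1) = 0 := by
    intro j
    rw [← map_sum, ← ind_S]
    exact hq j
  have key : ∀ n : ℕ, ∀ h : n < m + 1,
      q (Pi.single (⟨n, h⟩, 0) 1) = X m d (⟨n, h⟩, 0) • q (Pi.single (0, 2) 1) ∧
      q (Pi.single (⟨n, h⟩, 1) 1) = X m d (⟨n, h⟩, 1) • q (Pi.single (0, 2) 1) ∧
      q (Pi.single (⟨n, h⟩, 2) 1) = X m d (⟨n, h⟩, 2) • q (Pi.single (0, 2) 1) := by
    intro n
    induction n with
    | zero =>
      intro h
      have e : (⟨0, h⟩ : Fin (m + 1)) = 0 := rfl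
      rw [e]
      refine ⟨?_, ?_, ?_⟩
      · have := hq' (0, 0)
        rw [S_z0, Finset.sum_singleton] at this
        rw [this, X0]
        simp [U]
      · have := hq' (0, 1)
        rw [S_z1, Finset.sum_singleton] at this
        rw [this, X1]
        simp [U]
      · rw [X2]; simp
    | succ n ih =>
      intro h
      have hn : n < m := by omega
      obtain ⟨i0, i1, i2⟩ := ih (by omega)
      set j : Fin m := ⟨n, hn⟩ with hj
      have ec : (⟨n, by omega⟩ : Fin (m + 1)) = j.castSucc := rfl
      have es : (⟨n + 1, h⟩ : Fin (m + 1)) = j.succ := rfl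
      rw [ec] at i0 i1 i2
      rw [es]
      have hX : X m d (j.castSucc, 0) • q (Pi.single (0, 2) 1) +
          X m d (j.castSucc, 1) • q (Pi.single (0, 2) 1) +
          (if d j.castSucc then X m d (j.castSucc, 2) • q (Pi.single (0, 2) 1) else 0) =
          ((-1) ^ (j : ℕ) * (U m d (j + 1) : ℤ)) • q (Pi.single (0, 2) 1) := by
        have e1 := X_tl m d j.castSucc
        rw [Fin.val_castSucc] at e1
        rw [← e1]
        split_ifs
        · rw [add_smul, add_smul]
        · rw [add_zero, add_zero, add_smul]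
      refine ⟨?_, ?_, ?_⟩
      · have h1 := hq' (j.succ, 0)
        rw [sum_s0, i0, i1, i2, hX] at h1
        rw [eq_neg_of_add_eq_zero_left h1, X0, Fin.val_succ, pow_succ, ← neg_smul]
        congr 1
        ring
      · have h1 := hq' (j.succ, 1)
        rw [sum_s1, i0, i1, i2, hX] at h1
        rw [eq_neg_of_add_eq_zero_left h1, X1, Fin.val_succ, pow_succ, ← neg_smul]
        congr 1
        ring
      · have h1 := hq' (j.succ, 2)
        rw [sum_s2, i2] at h1
        rw [eq_neg_of_add_eq_zero_right h1, X2, X2, Fin.val_succ, Fin.val_castSucc, pow_succ,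
          ← neg_smul]
        congr 1
        ring
  obtain ⟨i, t⟩ := b
  have := key i.1 i.2
  fin_cases t
  · exact this.1
  · exact this.2.1
  · exact this.2.2

include hk in
theorem wh_ker : (wh m d k).ker = rel (ZZ m d) := by
  apply le_antisymm
  · intro g hg
    let q : (Ix m → ℤ) →+ (Ix m → ℤ) ⧸ rel (ZZ m d) := QuotientAddGroup.mk' _
    have hq : ∀ j, q (ind {b | ZZ m d j b}) = 0 := by
      intro j
      exact (QuotientAddGroup.eq_zero_iff _).2 (AddSubgroup.subset_closure ⟨j, rfl⟩)
    have h1 := hom_eq m d q hq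
    have hkq : (k : ℤ) • q (Pi.single (0, 2) 1) = 0 := by
      have h2 : ∑ b ∈ S m d (0, 2), q (Pi.single b 1) = 0 := by
        rw [← map_sum, ← ind_S]
        exact hq _
      rw [Finset.sum_congr rfl (fun b _ => h1 b)] at h2
      rw [← sum_zsmul', S_z2, sum_tl, X_tl, Fin.val_last, hk] at h2
      rcases neg_one_pow_eq_or ℤ m with h3 | h3
      · rw [h3, one_mul] at h2; exact h2
      · rw [h3] at h2
        rw [neg_one_mul, neg_smul] at h2
        exact neg_eq_zero.1 h2
    have h3 : q g = (∑ b, g b * X m d b) • q (Pi.single (0, 2) 1) := by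
      conv_lhs => rw [← Finset.univ_sum_single g]
      rw [map_sum, sum_zsmul']
      apply Finset.sum_congr rfl
      intro b _
      have : Pi.single b (g b) = (g b) • (Pi.single b (1 : ℤ) : Ix m → ℤ) := by
        rw [← Pi.single_smul]; simp
      rw [this, map_zsmul, h1 b, smul_smul]
    have h4 : (k : ℤ) ∣ ∑ b, g b * X m d b := by
      rw [← ZMod.intCast_zmod_eq_zero_iff_dvd]
      exact hg
    obtain ⟨t, ht⟩ := h4
    rw [ht, mul_comm, mul_smul, hkq, smul_zero] at h3
    exact (QuotientAddGroup.eq_zero_iff _).1 h3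
  · unfold rel
    rw [AddSubgroup.closure_le]
    rintro _ ⟨j, rfl⟩
    exact wh_ind m d k hk j

theorem wh_surj : Function.Surjective (wh m d k) := by
  intro r
  obtain ⟨z, rfl⟩ := ZMod.intCast_surjective r
  refine ⟨z • Pi.single (0, 2) 1, ?_⟩
  rw [map_zsmul, wh_single, X2]
  simp

include hk in
theorem chain_RA : IsRA k (Gr (ZZ m d)) :=
  quot (ZZ m d) (wh m d k) (wh_ker m d k hk) (wh_surj m d k)

end chain

/-- every number with at most `n` binary digits arises -/
theorem exists_digits (k : ℕ) : ∀ m : ℕ, k < 2 ^ (m + 1) →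
    ∃ d : Fin (m + 1) → Bool, U m d (m + 1) = k := by
  intro m hk
  refine ⟨fun i => k.testBit (m - i), ?_⟩
  have key : ∀ i : ℕ, i ≤ m + 1 → U m (fun i : Fin (m + 1) => k.testBit (m - i)) i =
      k / 2 ^ (m + 1 - i) := by
    intro i
    induction i with
    | zero =>
      intro _
      rw [U, Nat.sub_zero, Nat.div_eq_of_lt hk]
    | succ i ih =>
      intro hi
      rw [U, dif_pos (by omega), ih (by omega)]
      have e : m + 1 - i = (m + 1 - (i + 1)) + 1 := by omega
      rw [e, pow_succ, ← Nat.div_div_eq_div_mul]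
      have e2 : m + 1 - (i + 1) = m - i := by omega
      rw [e2]
      simp only [Nat.testBit_eq_decide_div_mod_eq]
      have := Nat.div_add_mod (k / 2 ^ (m - i)) 2
      rcases Nat.mod_two_eq_zero_or_one (k / 2 ^ (m - i)) with h | h <;> simp [h] <;> omega
  have := key (m + 1) le_rfl
  rw [this]
  simp

end Pool.Agent.H37.RA
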