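import Mathlib
import Pool.Agent.H37.RA.Chain

set_option autoImplicit false
set_option linter.unusedSectionVars false
set_option linter.unusedSimpArgs false

namespace Pool.Agent.H37.RA

open Finset

open Classical

section count

variable (m : ℕ) (d : Fin (m + 1) → Bool)

/-- the code of a point relative to a stage -/
noncomputable def code (s : Fin (m + 1)) (a : Pt (Ix m)) : Bool × Fin 3 × Bool :=
  (decide (a.1.1 = s), a.1.2, a.2)

theorem code_inj (s : Fin (m + 1)) (a a' : Pt (Ix m)) (h : a.1.1 = s ∨ a.1.1 = s + 1)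
    (h' : a'.1.1 = s ∨ a'.1.1 = s + 1) (e : code m s a = code m s a') : a = a' := by
  unfold code at e
  simp only [Prod.mk.injEq, decide_eq_decide] at e
  obtain ⟨e1, e2, e3⟩ := e
  have e4 : a.1.1 = a'.1.1 := by
    by_cases h1 : a.1.1 = s
    · rw [h1, e1.1 h1]
    · have h2 : ¬ a'.1.1 = s := fun h3 => h1 (e1.2 h3)
      rw [h.resolve_left h1, h'.resolve_left h2]
  exact Prod.ext (Prod.ext e4 e2) e3

/-- the stage of a shared variable -/
noncomputable def stg (x : Dp (ZZ m d)) : Fin (m + 1) := (x.2.2.2.choose).1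

theorem stg_spec (x : Dp (ZZ m d)) : (x.1.1.1.1 = stg m d x ∨ x.1.1.1.1 = stg m d x + 1) ∧
    (x.1.2.1.1 = stg m d x ∨ x.1.2.1.1 = stg m d x + 1) := by
  have h := x.2.2.2.choose_spec
  exact ⟨mem_S m d _ _ h.1, mem_S m d _ _ h.2⟩

theorem card_Dp : Fintype.card (Dp (ZZ m d)) ≤ (m + 1) * 66 := by
  let F : Dp (ZZ m d) → Fin (m + 1) × Finset (Bool × Fin 3 × Bool) := fun x =>
    (stg m d x, {code m (stg m d x) x.1.1, code m (stg m d x) x.1.2})
  have hF : Function.Injective F := by
    intro x y h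
    have h1 : stg m d x = stg m d y := by
      have := congrArg Prod.fst h
      exact this
    have h2 : ({code m (stg m d x) x.1.1, code m (stg m d x) x.1.2} : Finset _) =
        {code m (stg m d y) y.1.1, code m (stg m d y) y.1.2} := by
      have := congrArg Prod.snd h
      exact this
    rw [← h1] at h2
    obtain ⟨hx1, hx2⟩ := stg_spec m d x
    obtain ⟨hy1, hy2⟩ := stg_spec m d y
    rw [← h1] at hy1 hy2
    have hxne : x.1.1 ≠ x.1.2 := fun e => x.2.2.1 (by rw [e])
    have hm1 : code m (stg m d x) x.1.1 ∈ ({code m (stg m d x) y.1.1, code m (stg m d x) y.1.2} :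
        Finset _) := by rw [← h2]; simp
    have hm2 : code m (stg m d x) x.1.2 ∈ ({code m (stg m d x) y.1.1, code m (stg m d x) y.1.2} :
        Finset _) := by rw [← h2]; simp
    rw [Finset.mem_insert, Finset.mem_singleton] at hm1 hm2
    rcases hm1 with hm1 | hm1
    · have e1 := code_inj m _ _ _ hx1 hy1 hm1
      rcases hm2 with hm2 | hm2
      · have e2 := code_inj m _ _ _ hx2 hy1 hm2
        exact absurd (e1.trans e2.symm) hxne
      · have e2 := code_inj m _ _ _ hx2 hy2 hm2
        exact Subtype.ext (Prod.ext e1 e2)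
    · have e1 := code_inj m _ _ _ hx1 hy2 hm1
      rcases hm2 with hm2 | hm2
      · have e2 := code_inj m _ _ _ hx2 hy1 hm2
        exfalso
        have o1 := x.2.1
        have o2 := y.2.1
        rw [e1, e2] at o1
        exact lt_asymm o1 o2
      · have e2 := code_inj m _ _ _ hx2 hy2 hm2
        exact absurd (e1.trans e2.symm) hxne
  have hmem : ∀ x ∈ (Finset.univ : Finset (Dp (ZZ m d))), F x ∈
      (Finset.univ : Finset (Fin (m + 1))) ×ˢ
        (Finset.univ : Finset (Bool × Fin 3 × Bool)).powersetCard 2 := by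
    intro x _
    rw [Finset.mem_product]
    refine ⟨Finset.mem_univ _, ?_⟩
    rw [Finset.mem_powersetCard]
    refine ⟨Finset.subset_univ _, ?_⟩
    apply Finset.card_pair
    intro e
    obtain ⟨hx1, hx2⟩ := stg_spec m d x
    have := code_inj m _ _ _ hx1 hx2 e
    exact x.2.2.1 (by rw [this])
  have h := Finset.card_le_card_of_injOn F hmem hF.injOn
  rw [Finset.card_product, Finset.card_powersetCard] at h
  simp only [Finset.card_univ, Fintype.card_fin, Fintype.card_prod, Fintype.card_bool] at h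
  have e : Nat.choose (2 * (3 * 2)) 2 = 66 := by decide
  rw [e] at h
  exact h

theorem card_Vt : Fintype.card (Vt (ZZ m d)) ≤ 81 * (m + 1) + 1 := by
  have h := card_Dp m d
  simp only [Vt, Blk, Pt, Ix, Fintype.card_option, Fintype.card_sum, Fintype.card_prod,
    Fintype.card_fin, Fintype.card_bool]
  omega

theorem Gr_connected {ι β : Type} [Fintype ι] [Fintype β] (Z : ι → β → Prop) :
    (Gr Z).Connected := by
  rw [SimpleGraph.connected_iff_exists_forall_reachable]
  refine ⟨none, fun w => ?_⟩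
  by_cases h : w = none
  · rw [h]
  · apply SimpleGraph.Adj.reachable
    exact ⟨fun e => h e.symm, mem_M_none Z w⟩

theorem Gr_triangle {ι β : Type} [Fintype ι] [Fintype β] (Z : ι → β → Prop) (j : ι) :
    ¬ (Gr Z).CliqueFree 3 := by
  intro h
  apply h {none, some (.inl (j, false)), some (.inl (j, true))}
  rw [SimpleGraph.is3Clique_triple_iff]
  refine ⟨⟨by simp, mem_M_none Z _⟩, ⟨by simp, mem_M_none Z _⟩, ⟨by simp, mem_M_ll Z _ _⟩⟩

end count

/-- upper bound -/
theorem exists_small (k : ℕ) : ∃ N : ℕ, N ≤ 81 * Nat.log 2 k + 82 ∧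
    ∃ Γ : SimpleGraph (Fin N), Γ.Connected ∧ ¬ Γ.CliqueFree 3 ∧ IsRA k Γ := by
  obtain ⟨d, hd⟩ := exists_digits k (Nat.log 2 k) (Nat.lt_pow_succ_log_self (by norm_num) k)
  refine ⟨Fintype.card (Vt (ZZ (Nat.log 2 k) d)), ?_, (Gr (ZZ (Nat.log 2 k) d)).overFin rfl,
    ?_, ?_, ?_⟩
  · have := card_Vt (Nat.log 2 k) d
    omega
  · rw [← SimpleGraph.Iso.connected_iff (SimpleGraph.overFinIso _ rfl)]
    exact Gr_connected _
  · intro h
    apply Gr_triangle (ZZ (Nat.log 2 k) d) (0, 0)
    exact h.comap (SimpleGraph.overFinIso (Gr (ZZ (Nat.log 2 k) d)) rfl).toCopy.isContained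
  · exact (chain_RA _ d k hd).congr (SimpleGraph.overFinIso _ rfl)

end Pool.Agent.H37.RA
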