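import Mathlib
import Pool.Agent.H37.RA.Defs

set_option autoImplicit false
set_option linter.unusedSectionVars false

namespace Pool.Agent.H37.RA

open Finset

open Classical

variable {V : Type} [Fintype V] (Γ : SimpleGraph V)

/-- the rows over the rationals -/
noncomputable def rowQ (p : V × V) : V → ℚ := fun v => (row Γ p.1 p.2 v : ℚ)

theorem cast_mem (f : V → ℤ) (h : f ∈ lat Γ) :
    (fun v => (f v : ℚ)) ∈ Submodule.span ℚ (Set.range (rowQ Γ)) := by
  unfold lat at h
  induction h using AddSubgroup.closure_induction with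
  | mem x hx =>
    obtain ⟨p, rfl⟩ := hx
    exact Submodule.subset_span ⟨p, rfl⟩
  | zero =>
    have e : (fun v : V => (((0 : V → ℤ) v : ℤ) : ℚ)) = 0 := by funext v; simp
    rw [e]
    exact Submodule.zero_mem _
  | add x y _ _ hx hy =>
    have := Submodule.add_mem _ hx hy
    convert this using 1
    funext v
    simp
  | neg x _ hx =>
    have := Submodule.neg_mem _ hx
    convert this using 1
    funext v
    simp

theorem kill {k : ℕ} (h : IsRA k Γ) (f : V → ℤ) : (k : ℤ) • f ∈ lat Γ := by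
  obtain ⟨φ⟩ := h
  rw [← QuotientAddGroup.eq_zero_iff]
  apply φ.injective
  rw [map_zero]
  have : φ (((k : ℤ) • f : V → ℤ) : (V → ℤ) ⧸ lat Γ) = (k : ℤ) • φ (f : (V → ℤ) ⧸ lat Γ) := by
    rw [← map_zsmul]; rfl
  rw [this]
  simp

theorem dvd_of_kill {k : ℕ} (h : IsRA k Γ) (z : ℤ) (hz : ∀ f : V → ℤ, z • f ∈ lat Γ) :
    (k : ℤ) ∣ z := by
  obtain ⟨φ⟩ := h
  obtain ⟨x, hx⟩ := φ.surjective 1
  obtain ⟨f, rfl⟩ := QuotientAddGroup.mk_surjective x
  have h1 : ((z • f : V → ℤ) : (V → ℤ) ⧸ lat Γ) = 0 := (QuotientAddGroup.eq_zero_iff _).2 (hz f)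
  have h2 : φ (((z • f : V → ℤ)) : (V → ℤ) ⧸ lat Γ) = z • φ (f : (V → ℤ) ⧸ lat Γ) := by
    rw [← map_zsmul]; rfl
  rw [h1, map_zero, hx] at h2
  rw [← ZMod.intCast_zmod_eq_zero_iff_dvd]
  simpa using h2.symm

theorem span_top {k : ℕ} (hk : 1 ≤ k) (h : IsRA k Γ) :
    Submodule.span ℚ (Set.range (rowQ Γ)) = ⊤ := by
  rw [eq_top_iff]
  intro g _
  rw [← Finset.univ_sum_single g]
  apply Submodule.sum_mem
  intro v _
  have h1 := cast_mem Γ _ (kill Γ h (Pi.single v 1))
  have hk' : (k : ℚ) ≠ 0 := by positivity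
  have h2 := Submodule.smul_mem _ (g v / k) h1
  convert h2 using 1
  funext w
  by_cases hw : w = v
  · subst hw
    simp
    field_simp
  · simp [hw]

theorem exists_rows {k : ℕ} (hk : 1 ≤ k) (h : IsRA k Γ) :
    ∃ s : V → V × V, LinearIndependent ℚ (fun v => rowQ Γ (s v)) := by
  obtain ⟨b, hb1, hb2, hb3⟩ := exists_linearIndependent ℚ (Set.range (rowQ Γ))
  rw [span_top Γ hk h] at hb2
  have hb4 : ⊤ ≤ Submodule.span ℚ (Set.range (Subtype.val : b → V → ℚ)) := by
    rw [Subtype.range_coe, hb2]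
  let B := Module.Basis.mk hb3 hb4
  let e : b ≃ V := B.indexEquiv (Pi.basisFun ℚ V)
  have hs : ∀ v : V, ∃ p : V × V, rowQ Γ p = (e.symm v : V → ℚ) := fun v => hb1 (e.symm v).2
  choose s hs using hs
  refine ⟨s, ?_⟩
  have : (fun v => rowQ Γ (s v)) = (Subtype.val : b → V → ℚ) ∘ e.symm := by
    funext v
    exact hs v
  rw [this]
  exact hb3.comp _ e.symm.injective

theorem le_factorial {k : ℕ} (hk : 1 ≤ k) (h : IsRA k Γ) : k ≤ (Fintype.card V).factorial := by
  obtain ⟨s, hs⟩ := exists_rows Γ hk h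
  let A : Matrix V V ℤ := fun v w => row Γ (s v).1 (s v).2 w
  have hdet : A.det ≠ 0 := by
    intro h0
    have h1 : (A.map (Int.cast : ℤ → ℚ)).det = 0 := by
      have := Int.cast_det (R := ℚ) A
      rw [h0, Int.cast_zero] at this
      exact this.symm
    have h2 : LinearIndependent ℚ (A.map (Int.cast : ℤ → ℚ)).row := hs
    rw [Matrix.linearIndependent_rows_iff_isUnit, Matrix.isUnit_iff_isUnit_det, h1] at h2
    exact not_isUnit_zero h2
  have hkill : ∀ f : V → ℤ, A.det • f ∈ lat Γ := by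
    intro f
    rw [← Finset.univ_sum_single f, Finset.smul_sum]
    apply sum_mem
    intro v _
    have e1 : A.det • (Pi.single v (f v) : V → ℤ) =
        f v • ∑ w, (A.adjugate v w) • row Γ (s w).1 (s w).2 := by
      funext x
      have h3 := congrFun (congrFun (Matrix.adjugate_mul A) v) x
      rw [Matrix.mul_apply] at h3
      simp only [Pi.smul_apply, Finset.sum_apply, smul_eq_mul]
      change A.det * (Pi.single v (f v) : V → ℤ) x = f v * ∑ w, A.adjugate v w * A w x
      rw [h3]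
      simp only [Matrix.smul_apply, Matrix.one_apply, smul_eq_mul]
      by_cases hx : v = x
      · subst hx; simp; ring
      · rw [if_neg hx, Pi.single_eq_of_ne (fun e => hx e.symm)]; simp
    rw [e1]
    apply zsmul_mem
    apply sum_mem
    intro w _
    apply zsmul_mem
    exact AddSubgroup.subset_closure ⟨s w, rfl⟩
  have hdvd := dvd_of_kill Γ h A.det hkill
  have h4 : |A.det| ≤ (Fintype.card V).factorial • (1 : ℤ) ^ Fintype.card V := by
    apply Matrix.det_le (abv := AbsoluteValue.abs)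
    intro i j
    change |row Γ (s i).1 (s i).2 j| ≤ 1
    unfold row
    rw [Set.indicator_apply]
    split_ifs <;> simp
  rw [one_pow, nsmul_eq_mul, mul_one] at h4
  have h5 : (k : ℤ) ≤ |A.det| := by
    apply Int.le_of_dvd (abs_pos.2 hdet)
    rwa [dvd_abs]
  exact_mod_cast h5.trans h4

end Pool.Agent.H37.RA
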