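import Mathlib
import Pool.Agent.H37.RA.Lower

set_option autoImplicit false
set_option linter.unusedSectionVars false

namespace Pool.Agent.H37.RA

open Finset

open Classical

/-- The crown graph on `2n` vertices. -/
def crown (n : ℕ) : SimpleGraph (Fin n ⊕ Fin n) where
  Adj u v := match u, v with
    | .inl i, .inr j => i ≠ j
    | .inr i, .inl j => i ≠ j
    | _, _ => False
  symm := ⟨by
    rintro (i | i) (j | j) h
    · exact h
    · exact fun e => h e.symm
    · exact fun e => h e.symm
    · exact h⟩
  loopless := ⟨by rintro (i | i) h <;> exact h⟩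

/-- The pyramid over a graph: one new vertex, adjacent to all others. -/
def pyramid {V : Type} (H : SimpleGraph V) : SimpleGraph (Option V) where
  Adj u v := match u, v with
    | none, none => False
    | none, some _ => True
    | some _, none => True
    | some u, some v => H.Adj u v
  symm := ⟨by
    rintro (_ | u) (_ | v) h
    · exact h
    · trivial
    · trivial
    · exact H.symm.symm _ _ h⟩
  loopless := ⟨by
    rintro (_ | u) h
    · exact h
    · exact H.loopless.irrefl _ h⟩

section pyr

variable {n : ℕ}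

theorem row_mem' {V : Type} (Γ : SimpleGraph V) (u v : V) : row Γ u v ∈ lat Γ :=
  AddSubgroup.subset_closure ⟨(u, v), rfl⟩

theorem row_apply {V : Type} (Γ : SimpleGraph V) (u v w : V) : row Γ u v w =
    if (w = u ∨ Γ.Adj u w) ∧ (w = v ∨ Γ.Adj v w) then 1 else 0 := by
  unfold row
  rw [Set.indicator_apply]
  exact if_congr Iff.rfl rfl rfl

abbrev P (n : ℕ) : SimpleGraph (Option (Fin n ⊕ Fin n)) := pyramid (crown n)

abbrev el (i : Fin n) : Option (Fin n ⊕ Fin n) → ℤ := Pi.single (some (.inl i)) 1
abbrev er (i : Fin n) : Option (Fin n ⊕ Fin n) → ℤ := Pi.single (some (.inr i)) 1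
abbrev en (n : ℕ) : Option (Fin n ⊕ Fin n) → ℤ := Pi.single none 1

theorem en_mem (i : Fin n) : en n ∈ lat (P n) := by
  have h := row_mem' (P n) (some (.inl i)) (some (.inr i))
  convert h using 1
  funext w
  rw [row_apply]
  rcases w with _ | (j | j)
  · simp [pyramid]
  · simp only [pyramid, crown]
    by_cases h : j = i
    · subst h; simp
    · simp [h]
  · simp only [pyramid, crown]
    by_cases h : j = i
    · subst h; simp
    · simp [h]

theorem lr_mem (i j : Fin n) (hij : i ≠ j) : el i + er j ∈ lat (P n) := by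
  have h := sub_mem (row_mem' (P n) (some (.inl i)) (some (.inr j))) (en_mem i)
  convert h using 1
  funext w
  rw [Pi.sub_apply, Pi.add_apply, row_apply]
  rcases w with _ | (l | l)
  · simp [pyramid]
  · simp only [pyramid, crown]
    by_cases h1 : l = i
    · subst h1; simp [Ne.symm hij, hij]
    · simp [h1]
  · simp only [pyramid, crown]
    by_cases h1 : l = j
    · subst h1; simp [hij]
    · simp [h1]

theorem sum_er_mem (i i' : Fin n) (hii : i ≠ i') :
    ∑ j ∈ Finset.univ.filter (fun j => j ≠ i ∧ j ≠ i'), er j ∈ lat (P n) := by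
  have h := sub_mem (row_mem' (P n) (some (.inl i)) (some (.inl i'))) (en_mem i)
  convert h using 1
  funext w
  rw [Pi.sub_apply, Finset.sum_apply, row_apply]
  rcases w with _ | (l | l)
  · simp [pyramid]
  · simp only [pyramid, crown]
    by_cases h1 : l = i
    · subst h1; simp [hii]
    · simp [h1]
  · simp only [pyramid, crown]
    rw [Finset.sum_filter, Finset.sum_eq_single l]
    · by_cases h1 : l = i
      · subst h1; simp
      · by_cases h2 : l = i'
        · subst h2; simp
        · simp [h1, h2, Ne.symm h1, Ne.symm h2]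
    · intro b _ hb
      simp [Ne.symm hb]
    · intro h; exact absurd (Finset.mem_univ _) h

theorem exists_third (hn : 3 ≤ n) (i j : Fin n) : ∃ l : Fin n, l ≠ i ∧ l ≠ j := by
  by_contra h
  push Not at h
  have : (Finset.univ : Finset (Fin n)) ⊆ {i, j} := by
    intro l _
    rw [Finset.mem_insert, Finset.mem_singleton]
    by_cases h1 : l = i
    · exact Or.inl h1
    · exact Or.inr (h l h1)
  have h2 := Finset.card_le_card this
  rw [Finset.card_univ, Fintype.card_fin] at h2
  have := Finset.card_le_two (a := i) (b := j)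
  omega

theorem er_kill (hn : 3 ≤ n) (i : Fin n) : ((n : ℤ) - 2) • el i ∈ lat (P n) := by
  obtain ⟨i', hi', _⟩ := exists_third hn i i
  have h1 := sum_er_mem i i' hi'.symm
  have h2 : ∑ j ∈ Finset.univ.filter (fun j => j ≠ i ∧ j ≠ i'), (el i + er j) ∈ lat (P n) := by
    apply sum_mem
    intro j hj
    rw [Finset.mem_filter] at hj
    exact lr_mem i j (Ne.symm hj.2.1)
  rw [Finset.sum_add_distrib, Finset.sum_const] at h2
  have h3 := sub_mem h2 h1
  rw [add_sub_cancel_right] at h3
  have hc : (Finset.univ.filter (fun j => j ≠ i ∧ j ≠ i')).card = n - 2 := by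
    have e : (Finset.univ.filter (fun j : Fin n => j ≠ i ∧ j ≠ i')) =
        Finset.univ \ {i, i'} := by
      ext j
      simp
    rw [e, Finset.card_sdiff_of_subset (Finset.subset_univ _), Finset.card_univ, Fintype.card_fin,
      Finset.card_pair (Ne.symm hi')]
  rw [hc] at h3
  have e : ((n : ℤ) - 2) • el i = (n - 2) • el i := by
    rw [← natCast_zsmul]
    congr 1
    omega
  rw [e]
  exact h3

theorem er_kill' (hn : 3 ≤ n) (j : Fin n) : ((n : ℤ) - 2) • er j ∈ lat (P n) := by
  obtain ⟨i, hi, _⟩ := exists_third hn j j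
  have h1 := zsmul_mem (lr_mem i j hi) ((n : ℤ) - 2)
  rw [smul_add] at h1
  have h2 := sub_mem h1 (er_kill hn i)
  rwa [add_sub_cancel_left] at h2

theorem pyr_kill (hn : 3 ≤ n) (f : Option (Fin n ⊕ Fin n) → ℤ) :
    ((n : ℤ) - 2) • f ∈ lat (P n) := by
  rw [← Finset.univ_sum_single f, Finset.smul_sum]
  apply sum_mem
  intro v _
  have e : ((n : ℤ) - 2) • (Pi.single v (f v) : Option (Fin n ⊕ Fin n) → ℤ) =
      f v • (((n : ℤ) - 2) • (Pi.single v (1 : ℤ) : Option (Fin n ⊕ Fin n) → ℤ)) := by
    funext w
    by_cases hw : w = v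
    · subst hw
      simp [mul_comm]
    · simp [hw]
  rw [e]
  apply zsmul_mem
  rcases v with _ | (i | i)
  · exact zsmul_mem (en_mem (⟨0, by omega⟩ : Fin n)) _
  · exact er_kill hn i
  · exact er_kill' hn i

/-- a pyramid over a crown graph which is `1/k`-RA has at least `2 k + 5` vertices, unless it is
tiny -/
theorem pyr_bound {k : ℕ} (h : IsRA k (P n)) (hn : 3 ≤ n) : k + 2 ≤ n := by
  have h1 := dvd_of_kill (P n) h _ (pyr_kill hn)
  have h2 := Int.le_of_dvd (by omega) h1
  omega

theorem pyr_bound' {k : ℕ} (hk : 121 ≤ k) (h : IsRA k (P n)) : k + 2 ≤ n := by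
  by_cases hn : 3 ≤ n
  · exact pyr_bound h hn
  · exfalso
    have h1 := le_factorial (P n) (by omega) h
    have h2 : Fintype.card (Option (Fin n ⊕ Fin n)) ≤ 5 := by
      rw [Fintype.card_option, Fintype.card_sum, Fintype.card_fin]
      omega
    have h3 := Nat.factorial_le h2
    have h4 : Nat.factorial 5 = 120 := by decide
    omega

end pyr

end Pool.Agent.H37.RA
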