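import Mathlib
import Pool.Agent.H37.RA.Count
import Pool.Agent.H37.RA.Pyramid

set_option autoImplicit false

namespace Pool.Agent.H37.RA

/-- The least number of vertices of a graph with a triangle which is `1/k`-RA. -/
noncomputable def m (k : ℕ) : ℕ :=
  sInf {n : ℕ | ∃ Γ : SimpleGraph (Fin n), ¬ Γ.CliqueFree 3 ∧ IsRA k Γ}

theorem m_spec (k : ℕ) : ∃ Γ : SimpleGraph (Fin (m k)), ¬ Γ.CliqueFree 3 ∧ IsRA k Γ := by
  obtain ⟨N, _, Γ, _, h1, h2⟩ := exists_small k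
  exact Nat.sInf_mem (s := {n : ℕ | ∃ Γ : SimpleGraph (Fin n), ¬ Γ.CliqueFree 3 ∧ IsRA k Γ})
    ⟨N, Γ, h1, h2⟩

theorem m_le {k N : ℕ} (Γ : SimpleGraph (Fin N)) (h1 : ¬ Γ.CliqueFree 3) (h2 : IsRA k Γ) :
    m k ≤ N := Nat.sInf_le ⟨Γ, h1, h2⟩

theorem m_upper (k : ℕ) : m k ≤ 81 * Nat.log 2 k + 82 := by
  obtain ⟨N, hN, Γ, _, h1, h2⟩ := exists_small k
  exact (m_le Γ h1 h2).trans hN

theorem m_lower (k : ℕ) (hk : 1 ≤ k) : k ≤ (m k).factorial := by
  obtain ⟨Γ, _, h⟩ := m_spec k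
  have := le_factorial Γ hk h
  rwa [Fintype.card_fin] at this

theorem log_bound (k : ℕ) (hk : 512 ≤ k) : 81 * Nat.log 2 k + 82 < 2 * k + 5 := by
  have h1 : 9 ≤ Nat.log 2 k := Nat.le_log_of_pow_le (by norm_num) (by norm_num; exact hk)
  have h2 : 2 ^ Nat.log 2 k ≤ k := Nat.pow_log_le_self 2 (by omega)
  have key : ∀ l : ℕ, 9 ≤ l → 81 * l + 82 < 2 * 2 ^ l + 5 := by
    intro l hl
    induction l, hl using Nat.le_induction with
    | base => norm_num
    | succ l hl ih =>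
      rw [pow_succ]
      have : 2 ^ 9 ≤ 2 ^ l := Nat.pow_le_pow_right (by norm_num) hl
      omega
  have := key _ h1
  omega

theorem pyr_not_min (k n : ℕ) (hk : 512 ≤ k) (h : IsRA k (pyramid (crown n))) :
    m k < Fintype.card (Option (Fin n ⊕ Fin n)) := by
  have h1 := pyr_bound' (by omega) h
  have h2 := m_upper k
  have h3 := log_bound k hk
  rw [Fintype.card_option, Fintype.card_sum, Fintype.card_fin]
  omega

end Pool.Agent.H37.RA
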